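import Mathlib

/-!
# Definitions for the node counts of Chebyshev-type trigonometric quadratures
-/

open MeasureTheory Real Set

namespace Pool.Agent.Lib.MP_205740_an

/-- A `2π`-periodic weight function: measurable, `2π`-periodic, nonnegative, integrable over one
period, with positive integral. -/
structure IsWeight (W : ℝ → ℝ) : Prop where
  measurable : Measurable W
  periodic : Function.Periodic W (2 * π)
  nonneg : ∀ t, 0 ≤ W t
  integrable : IntervalIntegrable W volume (-π) π
  integral_pos : 0 < ∫ t in (-π)..π, W t

/-- The space `𝒯ₙ` of real trigonometric polynomials of degree at most `n`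
(for `k = 0` the two generators are the constants `1` and `0`). -/
def TrigPoly (n : ℕ) : Submodule ℝ (ℝ → ℝ) :=
  Submodule.span ℝ {f : ℝ → ℝ | ∃ k : ℕ, k ≤ n ∧
    (f = (fun t => cos (k * t)) ∨ f = (fun t => sin (k * t)))}

/-- There is a Chebyshev-type trigonometric quadrature of degree `n` for `W` with `N` nodes:
nodes `θ i` (repetitions allowed) and one common weight `lam`, exact on `𝒯ₙ`. -/
def HasQuadrature (W : ℝ → ℝ) (n N : ℕ) : Prop :=
  ∃ (θ : Fin N → ℝ) (lam : ℝ), ∀ p ∈ TrigPoly n,
    ∫ t in (-π)..π, p t * W t = lam * ∑ i, p (θ i)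

/-- `N_W(n)`: the least `N` for which a Chebyshev-type quadrature of degree `n` for `W` with `N`
nodes exists (it would be `⊤` if there were none). -/
noncomputable def nodeCount (W : ℝ → ℝ) (n : ℕ) : ℕ∞ :=
  ⨅ (N : ℕ) (_ : HasQuadrature W n N), (N : ℕ∞)

/-- An admissible multiplicative perturbation for the pair `(m, M)`: measurable, `2π`-periodic,
with `m < h < M` almost everywhere. -/
structure IsPerturbation (m M : ℝ) (h : ℝ → ℝ) : Prop where
  measurable : Measurable h
  periodic : Function.Periodic h (2 * π)
  bounds : ∀ᵐ t, m < h t ∧ h t < M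

end Pool.Agent.Lib.MP_205740_an
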