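import Pool.Agent.Lib.MP_205740_an.Defs

/-!
# Lemmas for the node counts of Chebyshev-type trigonometric quadratures
-/

open MeasureTheory Real Set Filter
open scoped Topology ContDiff

namespace Pool.Agent.Lib.MP_205740_an

/-! ### Trigonometric preliminaries -/

lemma sum_cos_progression (n : ℕ) (x φ : ℝ) (hφ : sin (φ / 2) ≠ 0) (l : ℤ)
    (hn : (n : ℝ) * φ = l * (2 * π)) :
    ∑ k ∈ Finset.range n, cos (x + k * φ) = 0 := by
  have key : 2 * sin (φ / 2) * ∑ k ∈ Finset.range n, cos (x + k * φ) = 0 := by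
    rw [Finset.mul_sum]
    have h1 : ∀ k ∈ Finset.range n, 2 * sin (φ / 2) * cos (x + k * φ)
        = sin (x + ((k + 1 : ℕ) : ℝ) * φ - φ / 2) - sin (x + (k : ℝ) * φ - φ / 2) := by
      intro k _
      rw [Real.sin_sub_sin]
      push_cast
      ring_nf
    rw [Finset.sum_congr rfl h1,
      Finset.sum_range_sub (fun k : ℕ => sin (x + (k : ℝ) * φ - φ / 2))]
    have h2 : x + (n : ℝ) * φ - φ / 2 = (x + ((0 : ℕ) : ℝ) * φ - φ / 2) + l * (2 * π) := by
      rw [hn]; push_cast; ring
    rw [h2, Real.sin_add_int_mul_two_pi]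
    ring
  rcases mul_eq_zero.1 key with h | h
  · rcases mul_eq_zero.1 h with h | h
    · norm_num at h
    · exact absurd h hφ
  · exact h

lemma sin_half_ne {n j : ℕ} (hj : 1 ≤ j) (hjn : j < n) :
    sin ((2 * π * j / n) / 2) ≠ 0 := by
  have hn : (0 : ℝ) < n := by exact_mod_cast (by omega : 0 < n)
  have hj' : (0 : ℝ) < j := by exact_mod_cast hj
  have hjn' : (j : ℝ) < n := by exact_mod_cast hjn
  have h1 : (2 * π * j / n) / 2 = π * (j / n) := by ring
  rw [h1]
  apply ne_of_gt
  apply Real.sin_pos_of_pos_of_lt_pi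
  · positivity
  · have : (j : ℝ) / n < 1 := by rw [div_lt_one hn]; exact hjn'
    nlinarith [Real.pi_pos]

lemma cos_phi_ne_one {n j : ℕ} (hj : 1 ≤ j) (hjn : j < n) :
    cos (2 * π * j / n) ≠ 1 := by
  have h := sin_half_ne hj hjn
  have h2 : cos (2 * π * j / n) = 1 - 2 * sin ((2 * π * j / n) / 2) ^ 2 := by
    have := Real.cos_two_mul ((2 * π * j / n) / 2)
    have h3 := Real.sin_sq_add_cos_sq ((2 * π * j / n) / 2)
    have h4 : 2 * ((2 * π * j / n) / 2) = 2 * π * j / n := by ring
    rw [h4] at this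
    rw [this]; linarith
  rw [h2]
  intro h5
  apply h
  have : sin ((2 * π * j / n) / 2) ^ 2 = 0 := by linarith
  exact pow_eq_zero_iff (two_ne_zero) |>.1 this

/-! ### The family of weights -/

/-- The weight `W_K(t) = 1 / (1 + K (1 - cos (n t)))`. -/
noncomputable def wt (n : ℕ) (K : ℝ) (t : ℝ) : ℝ := (1 + K * (1 - cos (n * t)))⁻¹

lemma wt_den_pos (n : ℕ) {K : ℝ} (hK : 0 ≤ K) (t : ℝ) : 1 ≤ 1 + K * (1 - cos (n * t)) := by
  have := Real.cos_le_one (n * t)
  nlinarith

lemma wt_pos (n : ℕ) {K : ℝ} (hK : 0 ≤ K) (t : ℝ) : 0 < wt n K t :=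
  inv_pos.2 (lt_of_lt_of_le one_pos (wt_den_pos n hK t))

lemma wt_le_one (n : ℕ) {K : ℝ} (hK : 0 ≤ K) (t : ℝ) : wt n K t ≤ 1 :=
  inv_le_one_of_one_le₀ (wt_den_pos n hK t)

lemma wt_contDiff (n : ℕ) {K : ℝ} (hK : 0 ≤ K) : ContDiff ℝ ω (wt n K) := by
  unfold wt
  apply ContDiff.inv
  · fun_prop
  · intro t
    exact ne_of_gt (lt_of_lt_of_le one_pos (wt_den_pos n hK t))

lemma wt_continuous (n : ℕ) {K : ℝ} (hK : 0 ≤ K) : Continuous (wt n K) :=
  (wt_contDiff n hK).continuous

lemma wt_neg (n : ℕ) (K t : ℝ) : wt n K (-t) = wt n K t := by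
  unfold wt
  rw [mul_neg, Real.cos_neg]

lemma wt_shift {n : ℕ} (hn : 0 < n) (K t : ℝ) : wt n K (t + 2 * π / n) = wt n K t := by
  unfold wt
  have hn' : (n : ℝ) ≠ 0 := by exact_mod_cast hn.ne'
  have : (n : ℝ) * (t + 2 * π / n) = n * t + 2 * π := by field_simp
  rw [this, Real.cos_add_two_pi]

lemma wt_periodic (n : ℕ) (K : ℝ) : Function.Periodic (wt n K) (2 * π) := by
  intro t
  unfold wt
  have : (n : ℝ) * (t + 2 * π) = n * t + n * (2 * π) := by ring
  rw [this, Real.cos_add_nat_mul_two_pi]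

/-! ### Integrals against the weights -/

lemma integral_shift {g : ℝ → ℝ} (hg : Function.Periodic g (2 * π)) (s : ℝ) :
    ∫ t in (-π)..π, g (t + s) = ∫ t in (-π)..π, g t := by
  rw [intervalIntegral.integral_comp_add_right]
  have h := hg.intervalIntegral_add_eq (-π + s) (-π)
  have e1 : -π + s + 2 * π = π + s := by ring
  have e2 : -π + 2 * π = π := by ring
  rw [e1, e2] at h
  exact h

lemma integral_odd {g : ℝ → ℝ} (hg : ∀ t, g (-t) = - g t) :
    ∫ t in (-π)..π, g t = 0 := by
  have h := intervalIntegral.integral_comp_neg (a := -π) (b := π) g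
  rw [neg_neg] at h
  have h2 : ∫ t in (-π)..π, g (-t) = - ∫ t in (-π)..π, g t := by
    rw [← intervalIntegral.integral_neg]
    exact intervalIntegral.integral_congr (fun t _ => hg t)
  linarith

lemma periodic_cos_mul (j : ℕ) {W : ℝ → ℝ} (hW : Function.Periodic W (2 * π)) :
    Function.Periodic (fun t => cos (j * t) * W t) (2 * π) := by
  intro t
  have : (j : ℝ) * (t + 2 * π) = j * t + j * (2 * π) := by ring
  simp only
  rw [this, Real.cos_add_nat_mul_two_pi, hW t]

lemma int_sin_wt (n j : ℕ) (K : ℝ) : ∫ t in (-π)..π, sin (j * t) * wt n K t = 0 := by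
  apply integral_odd
  intro t
  rw [wt_neg, mul_neg, Real.sin_neg]
  ring

lemma wt_mul_intervalIntegrable (n : ℕ) {K : ℝ} (hK : 0 ≤ K) {f : ℝ → ℝ} (hf : Continuous f)
    (a b : ℝ) : IntervalIntegrable (fun t => f t * wt n K t) volume a b :=
  (hf.mul (wt_continuous n hK)).intervalIntegrable a b

lemma int_cos_wt {n j : ℕ} (hj : 1 ≤ j) (hjn : j < n) {K : ℝ} (hK : 0 ≤ K) :
    ∫ t in (-π)..π, cos (j * t) * wt n K t = 0 := by
  have hn : 0 < n := by omega
  have hn' : (n : ℝ) ≠ 0 := by exact_mod_cast hn.ne'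
  set φ : ℝ := 2 * π * j / n with hφ
  have h1 := integral_shift (periodic_cos_mul j (wt_periodic n K)) (2 * π / n)
  have h2 : ∀ t : ℝ, cos (j * (t + 2 * π / n)) * wt n K (t + 2 * π / n)
      = cos φ * (cos (j * t) * wt n K t) - sin φ * (sin (j * t) * wt n K t) := by
    intro t
    have e : (j : ℝ) * (t + 2 * π / n) = j * t + φ := by rw [hφ]; ring
    rw [wt_shift hn, e, Real.cos_add]
    ring
  rw [intervalIntegral.integral_congr (fun t _ => h2 t), intervalIntegral.integral_sub,
    intervalIntegral.integral_const_mul, intervalIntegral.integral_const_mul, int_sin_wt] at h1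
  · have h3 : (cos φ - 1) * ∫ t in (-π)..π, cos (j * t) * wt n K t = 0 := by linarith
    rcases mul_eq_zero.1 h3 with h | h
    · exact absurd (by linarith : cos φ = 1) (cos_phi_ne_one hj hjn)
    · exact h
  · exact (wt_mul_intervalIntegrable n hK (by fun_prop) _ _).const_mul _
  · exact (wt_mul_intervalIntegrable n hK (by fun_prop) _ _).const_mul _

/-- total mass of `wt n K` -/
noncomputable def mass (n : ℕ) (K : ℝ) : ℝ := ∫ t in (-π)..π, wt n K t

/-- defect of `wt n K`: the integral of `1 - cos (n t)` -/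
noncomputable def defect (n : ℕ) (K : ℝ) : ℝ := ∫ t in (-π)..π, (1 - cos (n * t)) * wt n K t

lemma mass_pos (n : ℕ) {K : ℝ} (hK : 0 ≤ K) : 0 < mass n K := by
  apply intervalIntegral.intervalIntegral_pos_of_pos
  · exact (wt_continuous n hK).intervalIntegrable _ _
  · exact wt_pos n hK
  · linarith [Real.pi_pos]

lemma defect_nonneg (n : ℕ) {K : ℝ} (hK : 0 ≤ K) : 0 ≤ defect n K := by
  apply intervalIntegral.integral_nonneg (by linarith [Real.pi_pos])
  intro t _
  exact mul_nonneg (by linarith [Real.cos_le_one (n * t)]) (wt_pos n hK t).le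

lemma defect_le (n : ℕ) {K : ℝ} (hK : 0 < K) : defect n K ≤ 2 * π / K := by
  have h : ∀ t ∈ Icc (-π) π, (1 - cos (n * t)) * wt n K t ≤ 1 / K := by
    intro t _
    have h1 := wt_den_pos n hK.le t
    have h0 : (0 : ℝ) < 1 + K * (1 - cos (n * t)) := by linarith
    unfold wt
    rw [← div_eq_mul_inv, div_le_div_iff₀ h0 hK]
    nlinarith
  have h2 := intervalIntegral.integral_mono_on (μ := volume) (a := -π) (b := π)
    (by linarith [Real.pi_pos])
    (wt_mul_intervalIntegrable n hK.le (f := fun t => 1 - cos (n * t)) (by fun_prop) _ _)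
    (continuous_const.intervalIntegrable _ _) h
  refine le_trans h2 ?_
  rw [intervalIntegral.integral_const]
  have : (π - -π) • (1 / K) = 2 * π / K := by rw [smul_eq_mul]; ring
  rw [this]

lemma mass_ge {n : ℕ} (hn : 0 < n) {K : ℝ} (hK : 1 ≤ K) : 4 / (3 * n * √K) ≤ mass n K := by
  have hn' : (1 : ℝ) ≤ n := by exact_mod_cast hn
  have hs : 1 ≤ √K := by rw [Real.one_le_sqrt]; exact hK
  have hsq : √K ^ 2 = K := Real.sq_sqrt (by linarith)
  set δ : ℝ := 1 / (n * √K) with hδ
  have hδ0 : 0 < δ := by positivity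
  have hδ1 : δ ≤ 1 := by
    rw [hδ, div_le_one (by positivity)]
    nlinarith
  have hπ : 3 < π := Real.pi_gt_three
  have hK0 : 0 ≤ K := by linarith
  have h1 : ∫ t in (-δ)..δ, wt n K t ≤ mass n K := by
    apply intervalIntegral.integral_mono_interval
    · linarith
    · linarith
    · linarith
    · exact Eventually.of_forall (fun t => (wt_pos n hK0 t).le)
    · exact (wt_continuous n hK0).intervalIntegrable _ _
  have h2 : ∫ t in (-δ)..δ, (2 / 3 : ℝ) ≤ ∫ t in (-δ)..δ, wt n K t := by
    apply intervalIntegral.integral_mono_on (by linarith) (continuous_const.intervalIntegrable _ _)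
      ((wt_continuous n hK0).intervalIntegrable _ _)
    intro t ht
    have h3 : 1 - cos (n * t) ≤ (n * t) ^ 2 / 2 := by
      linarith [Real.one_sub_sq_div_two_le_cos (x := n * t)]
    have h4 : t ^ 2 ≤ δ ^ 2 := by
      apply sq_le_sq'
      · exact ht.1
      · exact ht.2
    have h5 : K * (n * t) ^ 2 ≤ 1 := by
      have : K * (n * δ) ^ 2 = 1 := by
        rw [hδ]
        field_simp
        rw [hsq]
      calc K * (n * t) ^ 2 = (K * n ^ 2) * t ^ 2 := by ring
        _ ≤ (K * n ^ 2) * δ ^ 2 := by gcongr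
        _ = K * (n * δ) ^ 2 := by ring
        _ = 1 := this
    have h6 : 1 + K * (1 - cos (n * t)) ≤ 3 / 2 := by nlinarith
    have h7 := wt_den_pos n hK0 t
    unfold wt
    have h8 : (2 / 3 : ℝ) = (3 / 2 : ℝ)⁻¹ := by norm_num
    rw [h8]
    exact inv_anti₀ (by linarith) h6
  rw [intervalIntegral.integral_const, smul_eq_mul] at h2
  calc 4 / (3 * n * √K) = (δ - -δ) * (2 / 3) := by
        rw [hδ]
        field_simp
        ring
    _ ≤ _ := h2
    _ ≤ _ := h1

lemma ratio_tendsto {n : ℕ} (hn : 0 < n) :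
    Tendsto (fun K : ℝ => defect n K / mass n K) atTop (𝓝 0) := by
  have hn' : (0 : ℝ) < n := by exact_mod_cast hn
  have hlim : Tendsto (fun K : ℝ => (3 * π * n / 2) / √K) atTop (𝓝 0) :=
    Tendsto.div_atTop tendsto_const_nhds Real.tendsto_sqrt_atTop
  refine squeeze_zero' ?_ ?_ hlim
  · filter_upwards [eventually_ge_atTop (1 : ℝ)] with K hK
    exact div_nonneg (defect_nonneg n (by linarith)) (mass_pos n (by linarith)).le
  · filter_upwards [eventually_ge_atTop (1 : ℝ)] with K hK
    have hs : 0 < √K := Real.sqrt_pos.2 (by linarith)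
    have hsq : √K * √K = K := Real.mul_self_sqrt (by linarith)
    have h1 := defect_le n (K := K) (by linarith)
    have h2 := mass_ge hn hK
    have h3 := mass_pos n (K := K) (by linarith)
    have hc : (0 : ℝ) < 4 / (3 * n * √K) := by positivity
    calc defect n K / mass n K ≤ (2 * π / K) / (4 / (3 * n * √K)) := by gcongr
      _ = (2 * π / (√K * √K)) / (4 / (3 * n * √K)) := by rw [hsq]
      _ = (3 * π * n / 2) / √K := by
        field_simp
        ring

/-! ### Upper bound: `wt n K` has a quadrature with `2 n` nodes -/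

lemma cos_mem (n j : ℕ) (hj : j ≤ n) : (fun t : ℝ => cos (j * t)) ∈ TrigPoly n :=
  Submodule.subset_span ⟨j, hj, Or.inl rfl⟩

lemma one_mem (n : ℕ) : (fun _ : ℝ => (1 : ℝ)) ∈ TrigPoly n := by
  have h := cos_mem n 0 (Nat.zero_le _)
  simpa using h

lemma trigPoly_continuous {n : ℕ} {p : ℝ → ℝ} (hp : p ∈ TrigPoly n) : Continuous p := by
  induction hp using Submodule.span_induction with
  | mem f hf =>
    obtain ⟨k, _, rfl | rfl⟩ := hf <;> fun_prop
  | zero => exact continuous_const
  | add f g _ _ hf hg => exact hf.add hg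
  | smul a f _ hf => exact hf.const_smul a

/-- It is enough to check exactness on the generators. -/
lemma exact_of_generators {W : ℝ → ℝ} {n N : ℕ} {θ : Fin N → ℝ} {lam : ℝ}
    (hW : Continuous W)
    (hcos : ∀ j : ℕ, j ≤ n → ∫ t in (-π)..π, cos (j * t) * W t = lam * ∑ i, cos (j * θ i))
    (hsin : ∀ j : ℕ, j ≤ n → ∫ t in (-π)..π, sin (j * t) * W t = lam * ∑ i, sin (j * θ i)) :
    ∀ p ∈ TrigPoly n, ∫ t in (-π)..π, p t * W t = lam * ∑ i, p (θ i) := by
  intro p hp
  induction hp using Submodule.span_induction with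
  | mem f hf =>
    obtain ⟨k, hk, rfl | rfl⟩ := hf
    · exact hcos k hk
    · exact hsin k hk
  | zero => simp
  | add f g hf' hg' hf hg =>
    have h1 : IntervalIntegrable (fun t => f t * W t) volume (-π) π :=
      ((trigPoly_continuous hf').mul hW).intervalIntegrable _ _
    have h2 : IntervalIntegrable (fun t => g t * W t) volume (-π) π :=
      ((trigPoly_continuous hg').mul hW).intervalIntegrable _ _
    have h3 : ∀ t, (f + g) t * W t = f t * W t + g t * W t := by
      intro t; simp only [Pi.add_apply]; ring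
    rw [intervalIntegral.integral_congr (fun t _ => h3 t), intervalIntegral.integral_add h1 h2,
      hf, hg]
    simp only [Pi.add_apply, Finset.sum_add_distrib]
    ring
  | smul a f _ hf =>
    have h3 : ∀ t, (a • f) t * W t = a * (f t * W t) := by
      intro t; simp only [Pi.smul_apply, smul_eq_mul]; ring
    rw [intervalIntegral.integral_congr (fun t _ => h3 t), intervalIntegral.integral_const_mul, hf]
    simp only [Pi.smul_apply, smul_eq_mul, ← Finset.mul_sum]
    ring

lemma sum_fin_cos {n j : ℕ} (hj : 1 ≤ j) (hjn : j < n) (x : ℝ) :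
    ∑ k : Fin n, cos (x + j * (2 * π * k / n)) = 0 := by
  have hn' : (n : ℝ) ≠ 0 := by exact_mod_cast (by omega : n ≠ 0)
  rw [Fin.sum_univ_eq_sum_range (fun k : ℕ => cos (x + j * (2 * π * k / n))) n]
  have h := sum_cos_progression n x (2 * π * j / n) (sin_half_ne hj hjn) j (by
    push_cast; field_simp)
  rw [← h]
  apply Finset.sum_congr rfl
  intro k _
  congr 1
  ring

lemma sum_fin_sin {n j : ℕ} (hj : 1 ≤ j) (hjn : j < n) (x : ℝ) :
    ∑ k : Fin n, sin (x + j * (2 * π * k / n)) = 0 := by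
  have h := sum_fin_cos hj hjn (x - π / 2)
  rw [← h]
  apply Finset.sum_congr rfl
  intro k _
  rw [← Real.cos_sub_pi_div_two]
  congr 1
  ring

lemma hasQuadrature_wt {n : ℕ} (hn : 0 < n) {K : ℝ} (hK : 0 ≤ K) :
    HasQuadrature (wt n K) n (n + n) := by
  have hn' : (0 : ℝ) < n := by exact_mod_cast hn
  have hM := mass_pos n hK
  set r : ℝ := (∫ t in (-π)..π, cos (n * t) * wt n K t) / mass n K with hr
  have hD := defect_nonneg n hK
  have hcosint : ∫ t in (-π)..π, cos (n * t) * wt n K t = mass n K - defect n K := by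
    unfold mass defect
    rw [← intervalIntegral.integral_sub]
    · apply intervalIntegral.integral_congr
      intro t _
      simp only
      ring
    · exact (wt_continuous n hK).intervalIntegrable _ _
    · exact wt_mul_intervalIntegrable n hK (by fun_prop) _ _
  have hr1 : r ≤ 1 := by
    rw [hr, div_le_one hM, hcosint]; linarith
  have hr2 : -1 ≤ r := by
    rw [hr, le_div_iff₀ hM]
    have h : ∫ t in (-π)..π, (-1) * wt n K t ≤ ∫ t in (-π)..π, cos (n * t) * wt n K t := by
      apply intervalIntegral.integral_mono_on (by linarith [Real.pi_pos])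
      · exact ((wt_continuous n hK).intervalIntegrable _ _).const_mul _
      · exact wt_mul_intervalIntegrable n hK (by fun_prop) _ _
      · intro t _
        exact mul_le_mul_of_nonneg_right (Real.neg_one_le_cos _) (wt_pos n hK t).le
    rw [intervalIntegral.integral_const_mul] at h
    exact h
  set α : ℝ := arccos r / n with hα
  have hnα : (n : ℝ) * α = arccos r := by rw [hα]; field_simp
  have hcosα : cos (n * α) = r := by rw [hnα]; exact Real.cos_arccos hr2 hr1
  refine ⟨Fin.append (fun k : Fin n => α + 2 * π * k / n) (fun k : Fin n => -α + 2 * π * k / n),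
    mass n K / (2 * n), ?_⟩
  have hsplit : ∀ f : ℝ → ℝ, ∑ i, f (Fin.append (fun k : Fin n => α + 2 * π * k / n)
      (fun k : Fin n => -α + 2 * π * k / n) i)
      = (∑ k : Fin n, f (α + 2 * π * k / n)) + ∑ k : Fin n, f (-α + 2 * π * k / n) := by
    intro f
    rw [Fin.sum_univ_add]
    simp only [Fin.append_left, Fin.append_right]
  have htop : ∀ (k : Fin n) (y : ℝ), (n : ℝ) * (y + 2 * π * k / n) = n * y + (k : ℕ) * (2 * π) := by
    intro k y
    field_simp
  apply exact_of_generators (wt_continuous n hK)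
  · intro j hj
    rw [hsplit (fun t => cos (j * t))]
    rcases Nat.eq_zero_or_pos j with rfl | hj0
    · simp only [Nat.cast_zero, zero_mul, Real.cos_zero, one_mul, Finset.sum_const,
        Finset.card_univ, Fintype.card_fin, nsmul_eq_mul, mul_one]
      unfold mass
      field_simp
      ring
    · rcases Nat.lt_or_ge j n with hjn | hjn
      · rw [int_cos_wt hj0 hjn hK]
        have h1 := sum_fin_cos hj0 hjn (j * α)
        have h2 := sum_fin_cos hj0 hjn (j * (-α))
        simp only [mul_add]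
        rw [h1, h2]
        ring
      · have hjn' : j = n := le_antisymm hj hjn
        subst hjn'
        simp only [htop, Real.cos_add_nat_mul_two_pi, mul_neg, Real.cos_neg, hcosα,
          Finset.sum_const, Finset.card_univ, Fintype.card_fin, nsmul_eq_mul]
        rw [hr]
        field_simp
        ring
  · intro j hj
    rw [hsplit (fun t => sin (j * t)), int_sin_wt]
    rcases Nat.eq_zero_or_pos j with rfl | hj0
    · simp
    · rcases Nat.lt_or_ge j n with hjn | hjn
      · have h1 := sum_fin_sin hj0 hjn (j * α)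
        have h2 := sum_fin_sin hj0 hjn (j * (-α))
        simp only [mul_add]
        rw [h1, h2]
        ring
      · have hjn' : j = n := le_antisymm hj hjn
        subst hjn'
        simp only [htop, Real.sin_add_nat_mul_two_pi, mul_neg, Real.sin_neg,
          Finset.sum_const, Finset.card_univ, Fintype.card_fin, nsmul_eq_mul]
        ring

/-! ### Lower bound for the perturbed weight -/

/-- `An n` is the limit of the mean of `cos²`: it is `1` for `n = 2` and `1 / 2` for `n ≥ 3`. -/
noncomputable def An (n : ℕ) : ℝ := if n = 2 then 1 else 1 / 2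

lemma An_pos (n : ℕ) : 0 < An n := by
  unfold An; split_ifs <;> norm_num

/-- values of `cos` at the points `2 π l / n` depend only on `l` modulo `n`. -/
lemma cos_mod {n : ℕ} (hn : 0 < n) (l : ℤ) :
    cos (2 * π * (l : ℝ) / n) = cos (2 * π * ((l % (n : ℤ) : ℤ) : ℝ) / n) := by
  have hn' : (n : ℝ) ≠ 0 := by exact_mod_cast hn.ne'
  have h : (l : ℝ) = ((l % (n : ℤ) : ℤ) : ℝ) + ((l / (n : ℤ) : ℤ) : ℝ) * n := by
    have := Int.emod_add_mul_ediv l (n : ℤ)
    have h2 : (l : ℝ) = (((l % (n : ℤ)) + (n : ℤ) * (l / (n : ℤ)) : ℤ) : ℝ) := by rw [this]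
    rw [h2]; push_cast; ring
  have h3 : 2 * π * (l : ℝ) / n
      = 2 * π * ((l % (n : ℤ) : ℤ) : ℝ) / n + ((l / (n : ℤ) : ℤ) : ℝ) * (2 * π) := by
    nth_rewrite 1 [h]
    field_simp
  rw [h3, Real.cos_add_int_mul_two_pi]

/-- A number which is not one of the finitely many sums has positive distance to all of them. -/
lemma exists_gap {n : ℕ} (hn : 0 < n) (N : ℕ) (y : ℝ)
    (h : ∀ l : Fin N → ℤ, y ≠ ∑ i, cos (2 * π * (l i : ℝ) / n)) :
    ∃ η : ℝ, 0 < η ∧ ∀ l : Fin N → ℤ, η ≤ |y - ∑ i, cos (2 * π * (l i : ℝ) / n)| := by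
  have : Nonempty (Fin N → Fin n) := ⟨fun _ => ⟨0, hn⟩⟩
  obtain ⟨l0, hl0⟩ := Finite.exists_min
    (fun l : Fin N → Fin n => |y - ∑ i, cos (2 * π * (((l i : ℕ) : ℤ) : ℝ) / n)|)
  refine ⟨|y - ∑ i, cos (2 * π * (((l0 i : ℕ) : ℤ) : ℝ) / n)|, ?_, ?_⟩
  · rw [abs_pos, sub_ne_zero]
    exact h (fun i => ((l0 i : ℕ) : ℤ))
  · intro l
    have hpos : (0 : ℤ) < n := by exact_mod_cast hn
    have hlt : ∀ i, (l i % (n : ℤ)).toNat < n := by
      intro i
      have h1 := Int.emod_nonneg (l i) hpos.ne'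
      have h2 := Int.emod_lt_of_pos (l i) hpos
      omega
    have h3 := hl0 (fun i => ⟨(l i % (n : ℤ)).toNat, hlt i⟩)
    have h4 : ∀ i, (((l i % (n : ℤ)).toNat : ℕ) : ℤ) = l i % (n : ℤ) := fun i =>
      Int.toNat_of_nonneg (Int.emod_nonneg (l i) hpos.ne')
    simp only [h4] at h3
    have h5 : ∑ i, cos (2 * π * (l i : ℝ) / n)
        = ∑ i, cos (2 * π * ((l i % (n : ℤ) : ℤ) : ℝ) / n) :=
      Finset.sum_congr rfl (fun i _ => cos_mod hn (l i))
    rw [h5]
    exact h3

/-- the perturbation `a + b cos t` -/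
noncomputable def pert (a b : ℝ) (t : ℝ) : ℝ := a + b * cos t

lemma int_pert {n : ℕ} (hn : 2 ≤ n) {K : ℝ} (hK : 0 ≤ K) (a b : ℝ) :
    ∫ t in (-π)..π, pert a b t * wt n K t = a * mass n K := by
  have h1 : ∀ t, pert a b t * wt n K t
      = a * wt n K t + b * (cos ((1 : ℕ) * t) * wt n K t) := by
    intro t; unfold pert; push_cast; ring_nf
  rw [intervalIntegral.integral_congr (fun t _ => h1 t), intervalIntegral.integral_add,
    intervalIntegral.integral_const_mul, intervalIntegral.integral_const_mul,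
    int_cos_wt (le_refl 1) (by omega) hK]
  · unfold mass; ring
  · exact ((wt_continuous n hK).intervalIntegrable _ _).const_mul _
  · exact (wt_mul_intervalIntegrable n hK (by fun_prop) _ _).const_mul _

lemma int_cos_two {n : ℕ} (hn : 2 ≤ n) {K : ℝ} (hK : 0 ≤ K) :
    ∃ e : ℝ, 0 ≤ e ∧ e ≤ defect n K ∧
      ∫ t in (-π)..π, cos ((2 : ℕ) * t) * wt n K t = (2 * An n - 1) * mass n K - e := by
  rcases Nat.eq_or_lt_of_le hn with h | h
  · subst h
    refine ⟨defect 2 K, defect_nonneg 2 hK, le_refl _, ?_⟩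
    have : An 2 = 1 := by simp [An]
    rw [this]
    unfold mass defect
    rw [← intervalIntegral.integral_const_mul, ← intervalIntegral.integral_sub]
    · apply intervalIntegral.integral_congr
      intro t _
      simp only
      ring
    · exact ((wt_continuous 2 hK).intervalIntegrable _ _).const_mul _
    · exact wt_mul_intervalIntegrable 2 hK (by fun_prop) _ _
  · refine ⟨0, le_refl _, defect_nonneg n hK, ?_⟩
    have : An n = 1 / 2 := by
      unfold An; rw [if_neg (by omega)]
    rw [this, int_cos_wt (by norm_num) h hK]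
    ring

lemma int_cos_pert {n : ℕ} (hn : 2 ≤ n) {K : ℝ} (hK : 0 ≤ K) (a b : ℝ) :
    ∃ e : ℝ, 0 ≤ e ∧ e ≤ defect n K ∧
      ∫ t in (-π)..π, cos ((1 : ℕ) * t) * (pert a b t * wt n K t)
        = b * (An n * mass n K - e / 2) := by
  obtain ⟨e, he0, he1, he⟩ := int_cos_two hn hK
  refine ⟨e, he0, he1, ?_⟩
  have h1 : ∀ t, cos ((1 : ℕ) * t) * (pert a b t * wt n K t)
      = a * (cos ((1 : ℕ) * t) * wt n K t)
        + ((b / 2) * wt n K t + (b / 2) * (cos ((2 : ℕ) * t) * wt n K t)) := by
    intro t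
    unfold pert
    have h2 := Real.cos_two_mul t
    push_cast
    rw [one_mul, h2]
    ring
  rw [intervalIntegral.integral_congr (fun t _ => h1 t), intervalIntegral.integral_add,
    intervalIntegral.integral_add, intervalIntegral.integral_const_mul,
    intervalIntegral.integral_const_mul, intervalIntegral.integral_const_mul,
    int_cos_wt (le_refl 1) (by omega) hK, he]
  · unfold mass; ring
  · exact ((wt_continuous n hK).intervalIntegrable _ _).const_mul _
  · exact (wt_mul_intervalIntegrable n hK (by fun_prop) _ _).const_mul _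
  · exact (wt_mul_intervalIntegrable n hK (by fun_prop) _ _).const_mul _
  · apply IntervalIntegrable.add
    · exact ((wt_continuous n hK).intervalIntegrable _ _).const_mul _
    · exact (wt_mul_intervalIntegrable n hK (by fun_prop) _ _).const_mul _

lemma pert_continuous (a b : ℝ) : Continuous (pert a b) := by
  unfold pert; fun_prop

lemma pert_pos {a b : ℝ} (hb : 0 ≤ b) (hab : b < a) (t : ℝ) : 0 < pert a b t := by
  unfold pert
  nlinarith [Real.neg_one_le_cos t]

lemma int_defect_pert {n : ℕ} {K : ℝ} (hK : 0 ≤ K) {a b : ℝ} (hb : 0 ≤ b) (hab : b < a) :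
    ∫ t in (-π)..π, (1 - cos (n * t)) * (pert a b t * wt n K t) ≤ 2 * a * defect n K := by
  unfold defect
  rw [← intervalIntegral.integral_const_mul]
  apply intervalIntegral.integral_mono_on (by linarith [Real.pi_pos])
  · apply Continuous.intervalIntegrable
    have := wt_continuous n hK
    have := pert_continuous a b
    fun_prop
  · exact (wt_mul_intervalIntegrable n hK (by fun_prop) _ _).const_mul _
  · intro t _
    have h1 : pert a b t ≤ 2 * a := by
      unfold pert
      nlinarith [Real.cos_le_one t]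
    have h2 := wt_pos n hK t
    have h3 : 0 ≤ 1 - cos (n * t) := by linarith [Real.cos_le_one (n * t)]
    have h4 : 0 ≤ (1 - cos (n * t)) * wt n K t := mul_nonneg h3 h2.le
    nlinarith

/-- rounding a node to the nearest point of `(2 π / n) ℤ` -/
lemma round_node {n : ℕ} (hn : 0 < n) (θ E : ℝ) (hE : 1 - cos (n * θ) ≤ 2 * E) :
    |cos θ - cos (2 * π * ((round (n * θ / (2 * π)) : ℤ) : ℝ) / n)| ≤ π * √E := by
  have hn' : (1 : ℝ) ≤ n := by exact_mod_cast hn
  have hπ := Real.pi_pos
  set l : ℤ := round (n * θ / (2 * π)) with hl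
  set d : ℝ := n * θ - 2 * π * l with hd
  have h1 : |d| ≤ π := by
    have h := abs_sub_round (n * θ / (2 * π))
    have h2 : d = (2 * π) * (n * θ / (2 * π) - l) := by
      rw [hd]; field_simp
    rw [h2, abs_mul, abs_of_pos (by positivity : (0:ℝ) < 2 * π)]
    nlinarith
  have h2 : cos d = cos (n * θ) := by
    have : d = n * θ - l * (2 * π) := by rw [hd]; ring
    rw [this, Real.cos_sub_int_mul_two_pi]
  have h3 := Real.cos_le_one_sub_mul_cos_sq h1
  rw [h2] at h3
  have h4 : d ^ 2 ≤ π ^ 2 * E := by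
    have : 2 / π ^ 2 * d ^ 2 ≤ 2 * E := by linarith
    have h5 : d ^ 2 = (π ^ 2 / 2) * (2 / π ^ 2 * d ^ 2) := by field_simp
    rw [h5]
    calc (π ^ 2 / 2) * (2 / π ^ 2 * d ^ 2) ≤ (π ^ 2 / 2) * (2 * E) := by gcongr
      _ = π ^ 2 * E := by ring
  have h5 : |d| ≤ π * √E := by
    rw [← Real.sqrt_sq hπ.le, ← Real.sqrt_mul (by positivity), ← Real.sqrt_sq_eq_abs]
    exact Real.sqrt_le_sqrt h4
  have h6 : θ - 2 * π * (l : ℝ) / n = d / n := by
    rw [hd]; field_simp
  calc |cos θ - cos (2 * π * (l : ℝ) / n)| ≤ |θ - 2 * π * (l : ℝ) / n| :=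
        Real.abs_cos_sub_cos_le _ _
    _ = |d| / n := by rw [h6, abs_div, abs_of_pos (by linarith : (0:ℝ) < n)]
    _ ≤ |d| := div_le_self (abs_nonneg _) hn'
    _ ≤ π * √E := h5

/-- The key estimate: a quadrature with `N` nodes for the perturbed weight forces
`N x Aₙ` to be close to a sum of `N` cosines at the points of `(2 π / n) ℤ`. -/
lemma key_estimate {n : ℕ} (hn : 2 ≤ n) {K : ℝ} (hK : 0 ≤ K) {a x : ℝ} (ha : 0 < a)
    (hx : 0 ≤ x) (hx1 : x < 1) {N : ℕ} (hN : 0 < N)
    (hQ : HasQuadrature (fun t => pert a (a * x) t * wt n K t) n N) :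
    ∃ l : Fin N → ℤ, |N * (x * An n) - ∑ i, cos (2 * π * (l i : ℝ) / n)|
      ≤ N * x * (defect n K / mass n K / 2) + N * (π * √(N * (defect n K / mass n K))) := by
  obtain ⟨θ, lam, h⟩ := hQ
  have hM := mass_pos n hK
  have hD := defect_nonneg n hK
  have hN' : (0 : ℝ) < N := by exact_mod_cast hN
  have hn0 : 0 < n := by omega
  set b : ℝ := a * x with hb
  have hb0 : 0 ≤ b := by positivity
  have hba : b < a := by rw [hb]; nlinarith
  set δ : ℝ := defect n K / mass n K with hδ
  have hδ0 : 0 ≤ δ := div_nonneg hD hM.le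
  have hDδ : defect n K = δ * mass n K := by rw [hδ]; field_simp
  -- the constant function
  have hone := h _ (one_mem n)
  simp only [one_mul, Finset.sum_const, Finset.card_univ, Fintype.card_fin, nsmul_eq_mul,
    mul_one] at hone
  rw [int_pert hn hK] at hone
  have hlam : lam = a * mass n K / N := by field_simp; linarith
  have hlam0 : 0 < lam := by rw [hlam]; positivity
  -- cosine of degree one
  obtain ⟨e, he0, he1, he⟩ := int_cos_pert hn hK a b
  have hcos := h _ (cos_mem n 1 (by omega))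
  simp only at hcos
  rw [he] at hcos
  have hsum : ∑ i, cos ((1 : ℕ) * θ i) = N * (x * An n) - N * x * (e / (2 * mass n K)) := by
    have : lam * ∑ i, cos ((1 : ℕ) * θ i)
        = lam * (N * (x * An n) - N * x * (e / (2 * mass n K))) := by
      rw [← hcos, hlam, hb]
      field_simp
    exact mul_left_cancel₀ hlam0.ne' this
  -- cosine of degree n
  have hcosn := h _ (cos_mem n n (le_refl n))
  have hdef : lam * ∑ i, (1 - cos (n * θ i)) ≤ 2 * a * defect n K := by
    have h1 : (fun t : ℝ => 1 - cos ((n : ℝ) * t)) ∈ TrigPoly n :=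
      (TrigPoly n).sub_mem (one_mem n) (cos_mem n n (le_refl n))
    have h2 := h _ h1
    simp only at h2
    rw [← h2]
    exact int_defect_pert hK hb0 hba
  have hE : ∑ i, (1 - cos (n * θ i)) ≤ 2 * (N * δ) := by
    have h1 : lam * ∑ i, (1 - cos (n * θ i)) ≤ lam * (2 * (N * δ)) := by
      refine le_trans hdef (le_of_eq ?_)
      rw [hDδ, hlam]
      field_simp
    exact le_of_mul_le_mul_left h1 hlam0
  have hEi : ∀ i, 1 - cos (n * θ i) ≤ 2 * (N * δ) := by
    intro i
    refine le_trans ?_ hE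
    exact Finset.single_le_sum (f := fun i => 1 - cos (n * θ i))
      (fun j _ => by linarith [Real.cos_le_one (n * θ j)]) (Finset.mem_univ i)
  refine ⟨fun i => round (n * θ i / (2 * π)), ?_⟩
  have h1 : N * (x * An n) - ∑ i, cos (2 * π * ((round (n * θ i / (2 * π)) : ℤ) : ℝ) / n)
      = N * x * (e / (2 * mass n K))
        + ∑ i, (cos (θ i) - cos (2 * π * ((round (n * θ i / (2 * π)) : ℤ) : ℝ) / n)) := by
    rw [Finset.sum_sub_distrib]
    have : ∑ i, cos (θ i) = ∑ i, cos ((1 : ℕ) * θ i) := by simp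
    rw [this, hsum]
    ring
  rw [h1]
  refine le_trans (abs_add_le _ _) (add_le_add ?_ ?_)
  · have h2 : 0 ≤ N * x * (e / (2 * mass n K)) := by positivity
    rw [abs_of_nonneg h2]
    have h3 : e / (2 * mass n K) ≤ δ / 2 := by
      rw [hδ, div_div, mul_comm (mass n K) 2]
      gcongr
    gcongr
  · refine le_trans (Finset.abs_sum_le_sum_abs _ _) ?_
    have h2 : ∀ i ∈ (Finset.univ : Finset (Fin N)),
        |cos (θ i) - cos (2 * π * ((round (n * θ i / (2 * π)) : ℤ) : ℝ) / n)| ≤ π * √(N * δ) :=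
      fun i _ => round_node hn0 (θ i) (N * δ) (hEi i)
    refine le_trans (Finset.sum_le_sum h2) ?_
    simp

/-- For fixed `N`, the perturbed weight eventually has no quadrature with `N` nodes. -/
lemma eventually_not {n : ℕ} (hn : 2 ≤ n) {a x : ℝ} (ha : 0 < a) (hx : 0 ≤ x) (hx1 : x < 1)
    (N : ℕ) (hbad : 0 < N → ∀ l : Fin N → ℤ,
      (N : ℝ) * (x * An n) ≠ ∑ i, cos (2 * π * (l i : ℝ) / n)) :
    ∀ᶠ K in atTop, ¬ HasQuadrature (fun t => pert a (a * x) t * wt n K t) n N := by
  rcases Nat.eq_zero_or_pos N with rfl | hN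
  · filter_upwards [eventually_ge_atTop (0 : ℝ)] with K hK
    rintro ⟨θ, lam, h⟩
    have h1 := h _ (one_mem n)
    simp only [one_mul, Finset.univ_eq_empty, Finset.sum_empty, mul_zero] at h1
    rw [int_pert hn hK] at h1
    have := mass_pos n hK
    have : 0 < a * mass n K := by positivity
    linarith
  · obtain ⟨η, hη, hgap⟩ := exists_gap (by omega : 0 < n) N _ (hbad hN)
    have hr := ratio_tendsto (n := n) (by omega)
    have hlim : Tendsto (fun K : ℝ => (N : ℝ) * x * (defect n K / mass n K / 2)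
        + N * (π * √(N * (defect n K / mass n K)))) atTop
        (𝓝 ((N : ℝ) * x * (0 / 2) + N * (π * √(N * 0)))) := by
      apply Tendsto.add
      · exact (hr.div_const 2).const_mul _
      · exact (((hr.const_mul (N : ℝ)).sqrt).const_mul π).const_mul (N : ℝ)
    have h0 : (N : ℝ) * x * (0 / 2) + N * (π * √(N * 0)) = 0 := by simp
    rw [h0] at hlim
    filter_upwards [hlim.eventually_lt_const hη, eventually_ge_atTop (0 : ℝ)] with K h1 hK hQ
    obtain ⟨l, hl⟩ := key_estimate hn hK ha hx hx1 hN hQ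
    have h2 := hgap l
    linarith

/-- the exceptional ratios: a countable set -/
def badSet : Set ℝ :=
  ⋃ n : ℕ, ⋃ N : ℕ, Set.range (fun l : Fin N → ℤ =>
    (∑ i, cos (2 * π * (l i : ℝ) / n)) / (N * An n))

lemma badSet_countable : badSet.Countable :=
  Set.countable_iUnion fun _ => Set.countable_iUnion fun _ => Set.countable_range _

lemma not_bad {x : ℝ} (hx : x ∉ badSet) (n N : ℕ) (hN : 0 < N) (l : Fin N → ℤ) :
    (N : ℝ) * (x * An n) ≠ ∑ i, cos (2 * π * (l i : ℝ) / n) := by
  intro h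
  apply hx
  simp only [badSet, Set.mem_iUnion, Set.mem_range]
  refine ⟨n, N, l, ?_⟩
  rw [← h]
  have hN' : (0 : ℝ) < N := by exact_mod_cast hN
  have := An_pos n
  field_simp

lemma nodeCount_le {W : ℝ → ℝ} {n N : ℕ} (h : HasQuadrature W n N) : nodeCount W n ≤ N :=
  iInf₂_le N h

lemma lt_nodeCount {W : ℝ → ℝ} {n B : ℕ} (h : ∀ N, N ≤ B → ¬ HasQuadrature W n N) :
    (B : ℕ∞) < nodeCount W n := by
  have h1 : ((B + 1 : ℕ) : ℕ∞) ≤ nodeCount W n := by
    unfold nodeCount
    refine le_iInf₂ fun N hN => ?_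
    have : ¬ N ≤ B := fun hle => h N hle hN
    exact_mod_cast (by omega : B + 1 ≤ N)
  refine lt_of_lt_of_le ?_ h1
  exact_mod_cast Nat.lt_succ_self B

lemma exists_wt {n : ℕ} (hn : 2 ≤ n) {a x : ℝ} (ha : 0 < a) (hx : 0 ≤ x) (hx1 : x < 1)
    (hbad : x ∉ badSet) (B : ℕ) :
    ∃ K : ℝ, 0 ≤ K ∧ ∀ N, N ≤ B →
      ¬ HasQuadrature (fun t => pert a (a * x) t * wt n K t) n N := by
  have h : ∀ᶠ K in atTop, ∀ N ∈ Finset.range (B + 1),
      ¬ HasQuadrature (fun t => pert a (a * x) t * wt n K t) n N := by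
    rw [Filter.eventually_all_finset]
    intro N _
    exact eventually_not hn ha hx hx1 N (fun hN l => not_bad hbad n N hN l)
  obtain ⟨K, hK, hK0⟩ := (h.and (eventually_ge_atTop (0 : ℝ))).exists
  exact ⟨K, hK0, fun N hN => hK N (Finset.mem_range.2 (by omega))⟩

/-! ### Every positive continuous weight has a quadrature -/

/-- the moment curve `t ↦ (e^{i t}, …, e^{i n t})` -/
noncomputable def G (n : ℕ) (t : ℝ) : Fin n → ℂ :=
  fun j => Complex.exp ((((j : ℕ) : ℂ) + 1) * t * Complex.I)

/-- points which are averages of finitely many points of the moment curve -/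
def R (n : ℕ) : Set (Fin n → ℂ) :=
  {c | ∃ (ι : Type) (_ : Fintype ι) (_ : Nonempty ι) (θ : ι → ℝ),
    (Fintype.card ι : ℝ) • c = ∑ i, G n (θ i)}

lemma G_continuous (n : ℕ) : Continuous (G n) := by
  unfold G
  fun_prop

lemma G_mem (n : ℕ) (t : ℝ) : G n t ∈ R n :=
  ⟨Unit, inferInstance, inferInstance, fun _ => t, by simp⟩

lemma R_comb {n : ℕ} {c d : Fin n → ℂ} (hc : c ∈ R n) (hd : d ∈ R n) (p q : ℕ)
    (hpq : 0 < p + q) :
    ((p : ℝ) / (p + q)) • c + ((q : ℝ) / (p + q)) • d ∈ R n := by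
  obtain ⟨ι, _, _, θ, hθ⟩ := hc
  obtain ⟨κ, _, _, ψ, hψ⟩ := hd
  have hpq' : (0 : ℝ) < (p : ℝ) + q := by exact_mod_cast hpq
  refine ⟨(ι × κ × Fin p) ⊕ (ι × κ × Fin q), inferInstance, ?_,
    Sum.elim (fun z => θ z.1) (fun z => ψ z.2.1), ?_⟩
  · rcases Nat.eq_zero_or_pos p with hp | hp
    · exact ⟨Sum.inr (Classical.arbitrary ι, Classical.arbitrary κ, ⟨0, by omega⟩)⟩
    · exact ⟨Sum.inl (Classical.arbitrary ι, Classical.arbitrary κ, ⟨0, hp⟩)⟩
  · rw [Fintype.sum_sum_type]
    simp only [Sum.elim_inl, Sum.elim_inr, Fintype.sum_prod_type, Finset.sum_const,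
      Finset.card_univ, Fintype.card_fin, Fintype.card_sum, Fintype.card_prod]
    have e1 : ∑ x : ι, (Fintype.card κ * p) • G n (θ x)
        = ((Fintype.card κ : ℝ) * p * Fintype.card ι) • c := by
      rw [← Finset.smul_sum, ← hθ, ← Nat.cast_smul_eq_nsmul ℝ, smul_smul]
      push_cast
      rfl
    have e2 : Fintype.card ι • ∑ y : κ, q • G n (ψ y)
        = ((Fintype.card ι : ℝ) * q * Fintype.card κ) • d := by
      rw [← Finset.smul_sum, ← hψ, ← Nat.cast_smul_eq_nsmul ℝ, ← Nat.cast_smul_eq_nsmul ℝ,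
        smul_smul, smul_smul]
    rw [e1, e2, smul_add, smul_smul, smul_smul]
    congr 2
    · push_cast; field_simp
    · push_cast; field_simp

lemma closure_R_convex (n : ℕ) : Convex ℝ (closure (R n)) := by
  -- first for two points of `R n`
  have h1 : ∀ c ∈ R n, ∀ d ∈ R n, ∀ a : ℝ, 0 ≤ a → a ≤ 1 →
      a • c + (1 - a) • d ∈ closure (R n) := by
    intro c hc d hd a ha0 ha1
    have hlim : Tendsto (fun x : ℝ => ((⌊a * x⌋₊ : ℝ) / x) • c + (1 - (⌊a * x⌋₊ : ℝ) / x) • d)
        atTop (𝓝 (a • c + (1 - a) • d)) := by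
      have h := tendsto_nat_floor_mul_div_atTop ha0
      exact (h.smul_const c).add ((tendsto_const_nhds.sub h).smul_const d)
    have hlim2 := hlim.comp tendsto_natCast_atTop_atTop
    refine mem_closure_of_tendsto hlim2 ?_
    filter_upwards [eventually_ge_atTop 1] with k hk
    have hk' : (0 : ℝ) < k := by exact_mod_cast hk
    have hle : ⌊a * k⌋₊ ≤ k := by
      have : a * k ≤ k := by nlinarith
      calc ⌊a * k⌋₊ ≤ ⌊(k : ℝ)⌋₊ := Nat.floor_le_floor this
        _ = k := Nat.floor_natCast k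
    have hmem := R_comb hc hd ⌊a * k⌋₊ (k - ⌊a * k⌋₊) (by omega)
    have e1 : ((⌊a * k⌋₊ : ℝ) + ((k - ⌊a * k⌋₊ : ℕ) : ℝ)) = k := by
      rw [Nat.cast_sub hle]; ring
    rw [e1] at hmem
    have e2 : (((k - ⌊a * k⌋₊ : ℕ) : ℝ) / k) = 1 - (⌊a * k⌋₊ : ℝ) / k := by
      rw [Nat.cast_sub hle]; field_simp
    rw [e2] at hmem
    exact hmem
  intro c hc d hd a b ha hb hab
  have hb' : b = 1 - a := by linarith
  subst hb'
  have hcont : Continuous (fun z : (Fin n → ℂ) × (Fin n → ℂ) => a • z.1 + (1 - a) • z.2) := by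
    fun_prop
  have h2 := map_mem_closure₂ (f := fun c d : Fin n → ℂ => a • c + (1 - a) • d)
    (u := closure (R n)) hcont hc hd (fun c hc d hd => h1 c hc d hd a ha (by linarith))
  rwa [closure_closure] at h2

/-- the averaging map for `M` nodes -/
noncomputable def avg (n M : ℕ) (y : Fin M → ℝ) : Fin n → ℂ := (M : ℝ)⁻¹ • ∑ k, G n (y k)

lemma avg_mem {n M : ℕ} (hM : 0 < M) (y : Fin M → ℝ) : avg n M y ∈ R n := by
  have hM' : (M : ℝ) ≠ 0 := by exact_mod_cast hM.ne'
  refine ⟨Fin M, inferInstance, ⟨⟨0, hM⟩⟩, y, ?_⟩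
  unfold avg
  rw [smul_smul, Fintype.card_fin, mul_inv_cancel₀ hM', one_smul]

/-- the derivative of the averaging map -/
noncomputable def avgDeriv (n M : ℕ) (y : Fin M → ℝ) : (Fin M → ℝ) →L[ℝ] (Fin n → ℂ) :=
  ContinuousLinearMap.pi fun j => ∑ k : Fin M,
    (((M : ℝ)⁻¹ : ℂ) * ((((j : ℕ) : ℂ) + 1) * Complex.I)
      * Complex.exp ((((j : ℕ) : ℂ) + 1) * (y k) * Complex.I)) •
      (Complex.ofRealCLM.comp (ContinuousLinearMap.proj k))

lemma avg_hasStrictFDerivAt (n M : ℕ) (y : Fin M → ℝ) :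
    HasStrictFDerivAt (avg n M) (avgDeriv n M y) y := by
  unfold avg avgDeriv
  rw [hasStrictFDerivAt_pi]
  intro j
  simp only [Pi.smul_apply, Finset.sum_apply, Finset.smul_sum, G]
  apply HasStrictFDerivAt.fun_sum
  intro k _
  have h1 : HasStrictFDerivAt (fun y : Fin M → ℝ => ((y k : ℝ) : ℂ))
      (Complex.ofRealCLM.comp (ContinuousLinearMap.proj k)) y :=
    (Complex.ofRealCLM.comp (ContinuousLinearMap.proj (R := ℝ) (φ := fun _ : Fin M => ℝ) k)).hasStrictFDerivAt
  have h2 := ((h1.const_mul ((((j : ℕ) : ℂ) + 1))).mul_const Complex.I).cexp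
  have h3 := h2.const_smul ((M : ℝ)⁻¹)
  convert! h3 using 1
  ext v
  simp
  ring

lemma root_sum {M : ℕ} (hM : 0 < M) {m : ℤ} (hm : ¬ (M : ℤ) ∣ m) :
    ∑ k : Fin M, Complex.exp ((m : ℂ) * ((2 * π * (k : ℕ) / M : ℝ) : ℂ) * Complex.I) = 0 := by
  have hM' : (M : ℂ) ≠ 0 := by exact_mod_cast hM.ne'
  set ζ : ℂ := Complex.exp ((m : ℂ) * (2 * π / M) * Complex.I) with hζ
  have h1 : ∀ k : Fin M, Complex.exp ((m : ℂ) * ((2 * π * (k : ℕ) / M : ℝ) : ℂ) * Complex.I)
      = ζ ^ (k : ℕ) := by
    intro k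
    rw [hζ, ← Complex.exp_nat_mul]
    congr 1
    push_cast
    ring
  rw [Finset.sum_congr rfl (fun k _ => h1 k), Fin.sum_univ_eq_sum_range (fun k => ζ ^ k) M]
  have h2 : ζ ^ M = 1 := by
    rw [hζ, ← Complex.exp_nat_mul, Complex.exp_eq_one_iff]
    refine ⟨m, ?_⟩
    field_simp
  have h3 : ζ ≠ 1 := by
    intro h
    rw [hζ, Complex.exp_eq_one_iff] at h
    obtain ⟨l, hl⟩ := h
    apply hm
    refine ⟨l, ?_⟩
    have hπ : (π : ℂ) ≠ 0 := by exact_mod_cast Real.pi_ne_zero
    have h4 : (m : ℂ) = M * l := by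
      field_simp at hl
      have h5 : (2 * π * Complex.I : ℂ) ≠ 0 := by
        simp [hπ]
      have h6 : (2 * π * Complex.I : ℂ) * m = (2 * π * Complex.I) * (M * l) := by
        linear_combination (2 * π * Complex.I) * hl
      exact mul_left_cancel₀ h5 h6
    exact_mod_cast h4
  have h4 := mul_geom_sum ζ M
  rw [h2, sub_self] at h4
  rcases mul_eq_zero.1 h4 with h | h
  · exact absurd (sub_eq_zero.1 h) h3
  · exact h

/-- equally spaced nodes -/
noncomputable def eq_nodes (M : ℕ) : Fin M → ℝ := fun k => 2 * π * (k : ℕ) / M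

lemma avg_eq_nodes {n M : ℕ} (hM : n < M) : avg n M (eq_nodes M) = 0 := by
  ext j
  have hj := j.2
  have h := root_sum (M := M) (by omega) (m := (j : ℕ) + 1) (by
    intro hdvd
    have := Int.le_of_dvd (by positivity) hdvd
    omega)
  unfold avg G eq_nodes
  simp only [Pi.smul_apply, Finset.sum_apply, Pi.zero_apply]
  push_cast at h ⊢
  rw [h, smul_zero]

lemma avgDeriv_surj {n M : ℕ} (hM : 2 * n < M) :
    (avgDeriv n M (eq_nodes M)).range = ⊤ := by
  rw [LinearMap.range_eq_top]
  intro v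
  have hM0 : 0 < M := by omega
  have hM' : (M : ℂ) ≠ 0 := by exact_mod_cast hM0.ne'
  set z : Fin n → ℂ := fun l => v l / ((((l : ℕ) : ℂ) + 1) * Complex.I) with hz
  set w : Fin M → ℂ := fun k => ∑ l : Fin n,
    (z l * Complex.exp (-(((((l : ℕ) : ℂ) + 1)) * (eq_nodes M k : ℂ) * Complex.I))
      + (starRingEnd ℂ) (z l) * Complex.exp ((((l : ℕ) : ℂ) + 1) * (eq_nodes M k : ℂ) * Complex.I))
    with hw
  have hreal : ∀ k, ((w k).re : ℂ) = w k := by
    intro k
    rw [← Complex.conj_eq_iff_re, hw]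
    simp only [map_sum, map_add, map_mul, Complex.conj_conj, ← Complex.exp_conj, map_neg,
      Complex.conj_ofReal, Complex.conj_I, map_natCast, map_one, mul_neg, neg_neg]
    apply Finset.sum_congr rfl
    intro l _
    ring
  refine ⟨fun k => (w k).re, ?_⟩
  ext j
  have hj := j.2
  simp only [avgDeriv, ContinuousLinearMap.coe_coe, ContinuousLinearMap.coe_pi',
    sum_apply, smul_apply,
    ContinuousLinearMap.comp_apply, ContinuousLinearMap.proj_apply, Complex.ofRealCLM_apply,
    smul_eq_mul]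
  have hj0 : ((((j : ℕ) : ℂ) + 1) * Complex.I) ≠ 0 := by
    apply mul_ne_zero _ Complex.I_ne_zero
    exact_mod_cast Nat.succ_ne_zero j
  have key : ∑ k : Fin M, Complex.exp ((((j : ℕ) : ℂ) + 1) * (eq_nodes M k : ℂ) * Complex.I) * w k
      = M * z j := by
    have e1 : ∀ k : Fin M,
        Complex.exp ((((j : ℕ) : ℂ) + 1) * (eq_nodes M k : ℂ) * Complex.I) * w k
        = ∑ l : Fin n, (z l * Complex.exp ((((j : ℕ) : ℤ) - ((l : ℕ) : ℤ) : ℤ)
              * ((2 * π * (k : ℕ) / M : ℝ) : ℂ) * Complex.I)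
          + (starRingEnd ℂ) (z l) * Complex.exp (((((j : ℕ) : ℤ) + ((l : ℕ) : ℤ) + 2 : ℤ) : ℂ)
              * ((2 * π * (k : ℕ) / M : ℝ) : ℂ) * Complex.I)) := by
      intro k
      rw [hw, Finset.mul_sum]
      apply Finset.sum_congr rfl
      intro l _
      have a1 : Complex.exp ((((j : ℕ) : ℤ) - ((l : ℕ) : ℤ) : ℤ)
              * ((2 * π * (k : ℕ) / M : ℝ) : ℂ) * Complex.I)
          = Complex.exp ((((j : ℕ) : ℂ) + 1) * (eq_nodes M k : ℂ) * Complex.I)
            * Complex.exp (-(((((l : ℕ) : ℂ) + 1)) * (eq_nodes M k : ℂ) * Complex.I)) := by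
        rw [← Complex.exp_add]
        congr 1
        unfold eq_nodes
        push_cast
        ring
      have a2 : Complex.exp (((((j : ℕ) : ℤ) + ((l : ℕ) : ℤ) + 2 : ℤ) : ℂ)
              * ((2 * π * (k : ℕ) / M : ℝ) : ℂ) * Complex.I)
          = Complex.exp ((((j : ℕ) : ℂ) + 1) * (eq_nodes M k : ℂ) * Complex.I)
            * Complex.exp (((((l : ℕ) : ℂ) + 1)) * (eq_nodes M k : ℂ) * Complex.I) := by
        rw [← Complex.exp_add]
        congr 1
        unfold eq_nodes
        push_cast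
        ring
      rw [a1, a2]
      ring
    rw [Finset.sum_congr rfl (fun k _ => e1 k), Finset.sum_comm]
    have e2 : ∀ l : Fin n, ∑ k : Fin M, (z l * Complex.exp ((((j : ℕ) : ℤ) - ((l : ℕ) : ℤ) : ℤ)
              * ((2 * π * (k : ℕ) / M : ℝ) : ℂ) * Complex.I)
          + (starRingEnd ℂ) (z l) * Complex.exp (((((j : ℕ) : ℤ) + ((l : ℕ) : ℤ) + 2 : ℤ) : ℂ)
              * ((2 * π * (k : ℕ) / M : ℝ) : ℂ) * Complex.I))
        = if l = j then M * z j else 0 := by
      intro l
      have hl := l.2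
      rw [Finset.sum_add_distrib, ← Finset.mul_sum, ← Finset.mul_sum,
        root_sum hM0 (m := ((j : ℕ) : ℤ) + ((l : ℕ) : ℤ) + 2) (by
          intro hdvd
          have := Int.le_of_dvd (by positivity) hdvd
          omega)]
      by_cases hlj : l = j
      · subst hlj
        simp
        ring
      · rw [if_neg hlj, root_sum hM0 (m := ((j : ℕ) : ℤ) - ((l : ℕ) : ℤ)) (by
          intro hdvd
          have hne : ((j : ℕ) : ℤ) - ((l : ℕ) : ℤ) ≠ 0 := by
            intro h0
            apply hlj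
            ext
            omega
          have := Int.natAbs_le_of_dvd_ne_zero hdvd hne
          have h5 : (((j : ℕ) : ℤ) - ((l : ℕ) : ℤ)).natAbs < n := by omega
          have h6 : (M : ℤ).natAbs = M := Int.natAbs_natCast M
          omega)]
        ring
    rw [Finset.sum_congr rfl (fun l _ => e2 l)]
    simp
  have e3 : ∀ k : Fin M, ((((M : ℝ)⁻¹ : ℝ) : ℂ) * ((((j : ℕ) : ℂ) + 1) * Complex.I)
        * Complex.exp ((((j : ℕ) : ℂ) + 1) * (eq_nodes M k : ℂ) * Complex.I)) * ((w k).re : ℂ)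
      = ((((M : ℝ)⁻¹ : ℝ) : ℂ) * ((((j : ℕ) : ℂ) + 1) * Complex.I))
        * (Complex.exp ((((j : ℕ) : ℂ) + 1) * (eq_nodes M k : ℂ) * Complex.I) * w k) := by
    intro k
    rw [hreal k]
    ring
  have e4 : ∑ k : Fin M, ((((M : ℝ)⁻¹ : ℝ) : ℂ) * ((((j : ℕ) : ℂ) + 1) * Complex.I)
        * Complex.exp ((((j : ℕ) : ℂ) + 1) * (eq_nodes M k : ℂ) * Complex.I)) * ((w k).re : ℂ)
      = v j := by
    rw [Finset.sum_congr rfl (fun k _ => e3 k), ← Finset.mul_sum, key, hz]
    push_cast
    field_simp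
  push_cast at e4 ⊢
  exact e4

lemma ball_subset (n : ℕ) : ∃ ρ : ℝ, 0 < ρ ∧ Metric.ball (0 : Fin n → ℂ) ρ ⊆ R n := by
  have h := (avg_hasStrictFDerivAt n (2 * n + 1) (eq_nodes (2 * n + 1))).map_nhds_eq_of_surj
    (avgDeriv_surj (by omega))
  rw [avg_eq_nodes (by omega)] at h
  have h2 : R n ∈ 𝓝 (0 : Fin n → ℂ) := by
    rw [← h, Filter.mem_map]
    filter_upwards with y
    exact avg_mem (by omega) y
  exact Metric.mem_nhds_iff.1 h2

/-- weighted averages of the moment curve lie in the closure of `R n` -/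
lemma integral_mem_closure (n : ℕ) {V : ℝ → ℝ} (hV : Continuous V) (hpos : ∀ t, 0 < V t) :
    (∫ t in (-π)..π, V t)⁻¹ • ∫ t in (-π)..π, V t • G n t ∈ closure (R n) := by
  have hle : -π ≤ π := by linarith [Real.pi_pos]
  have hmass : 0 < ∫ t in (-π)..π, V t :=
    intervalIntegral.intervalIntegral_pos_of_pos (hV.intervalIntegrable _ _) hpos
      (by linarith [Real.pi_pos])
  set A : ℝ := ∫ t in (-π)..π, V t with hA
  set f : ℝ → NNReal := fun t => Real.toNNReal (A⁻¹ * V t) with hf
  have hfm : Measurable f := by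
    rw [hf]
    exact (continuous_real_toNNReal.comp (continuous_const.mul hV)).measurable
  set μ : Measure ℝ := (volume.restrict (Ioc (-π) π)).withDensity (fun t => (f t : ENNReal)) with hμ
  have hfr : ∀ t, ((f t : NNReal) : ℝ) = A⁻¹ * V t := by
    intro t
    rw [hf]
    exact Real.coe_toNNReal _ (by have := hpos t; positivity)
  have hprob : IsProbabilityMeasure μ := by
    constructor
    rw [hμ, withDensity_apply _ MeasurableSet.univ, Measure.restrict_univ]
    have h1 : ∫⁻ t in Ioc (-π) π, (f t : ENNReal) = ENNReal.ofReal (∫ t in Ioc (-π) π, A⁻¹ * V t) := by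
      rw [ofReal_integral_eq_lintegral_ofReal]
      · rfl
      · exact ((continuous_const.mul hV).integrableOn_Icc).mono_set Ioc_subset_Icc_self
      · exact Eventually.of_forall (fun t => by have := hpos t; positivity)
    rw [h1, ← intervalIntegral.integral_of_le hle, intervalIntegral.integral_const_mul, ← hA,
      inv_mul_cancel₀ hmass.ne', ENNReal.ofReal_one]
  have hGint : Integrable (G n) μ := by
    rw [hμ, integrable_withDensity_iff_integrable_smul hfm]
    have hc : Continuous (fun t => f t • G n t) := by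
      have : Continuous f := by
        rw [hf]; exact continuous_real_toNNReal.comp (continuous_const.mul hV)
      exact this.smul (G_continuous n)
    exact (hc.integrableOn_Icc).mono_set Ioc_subset_Icc_self
  have hmem := (closure_R_convex n).integral_mem (μ := μ) isClosed_closure
    (Eventually.of_forall (fun t => subset_closure (G_mem n t))) hGint
  have e : ∫ t, G n t ∂μ = A⁻¹ • ∫ t in (-π)..π, V t • G n t := by
    rw [hμ, integral_withDensity_eq_integral_smul hfm, intervalIntegral.integral_of_le hle,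
      ← integral_smul]
    apply integral_congr_ae
    filter_upwards with t
    have : (f t) • G n t = ((f t : NNReal) : ℝ) • G n t := rfl
    rw [this, hfr, smul_smul]
  rw [e] at hmem
  exact hmem

lemma integral_re {n : ℕ} {f : ℝ → (Fin n → ℂ)} (hf : Continuous f) (j : Fin n) :
    ((∫ t in (-π)..π, f t) j).re = ∫ t in (-π)..π, (f t j).re := by
  have h := (Complex.reCLM.comp (ContinuousLinearMap.proj (R := ℝ) (φ := fun _ : Fin n => ℂ)
    j)).intervalIntegral_comp_comm (μ := volume) (hf.intervalIntegrable (-π) π)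
  exact h.symm

lemma integral_im {n : ℕ} {f : ℝ → (Fin n → ℂ)} (hf : Continuous f) (j : Fin n) :
    ((∫ t in (-π)..π, f t) j).im = ∫ t in (-π)..π, (f t j).im := by
  have h := (Complex.imCLM.comp (ContinuousLinearMap.proj (R := ℝ) (φ := fun _ : Fin n => ℂ)
    j)).intervalIntegral_comp_comm (μ := volume) (hf.intervalIntegrable (-π) π)
  exact h.symm

lemma G_re (n : ℕ) (t : ℝ) (j : Fin n) : (G n t j).re = cos (((j : ℕ) + 1 : ℕ) * t) := by
  unfold G
  have : (((j : ℕ) : ℂ) + 1) * t * Complex.I = (((((j : ℕ) + 1 : ℕ) * t : ℝ)) : ℂ) * Complex.I := by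
    push_cast; ring
  rw [this, Complex.exp_ofReal_mul_I_re]

lemma G_im (n : ℕ) (t : ℝ) (j : Fin n) : (G n t j).im = sin (((j : ℕ) + 1 : ℕ) * t) := by
  unfold G
  have : (((j : ℕ) : ℂ) + 1) * t * Complex.I = (((((j : ℕ) + 1 : ℕ) * t : ℝ)) : ℂ) * Complex.I := by
    push_cast; ring
  rw [this, Complex.exp_ofReal_mul_I_im]

lemma integral_G (n : ℕ) : ∫ t in (-π)..π, G n t = 0 := by
  have hw : ∀ m : ℕ, 0 < m → ∫ t in (-π)..π, cos (m * t) = 0 := by
    intro m hm
    have hm' : (m : ℝ) ≠ 0 := by exact_mod_cast hm.ne'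
    rw [intervalIntegral.integral_comp_mul_left (fun t => cos t) hm', integral_cos]
    have h1 : sin ((m : ℝ) * π) = 0 := Real.sin_nat_mul_pi m
    have h2 : sin ((m : ℝ) * (-π)) = 0 := by rw [mul_neg, Real.sin_neg, h1, neg_zero]
    rw [h1, h2]; simp
  ext j
  rw [← Complex.re_add_im ((∫ t in (-π)..π, G n t) j), integral_re (G_continuous n),
    integral_im (G_continuous n)]
  simp only [G_re, G_im]
  rw [hw _ (Nat.succ_pos _), integral_odd (fun t => by rw [mul_neg, Real.sin_neg])]
  simp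

/-- Every positive continuous weight has a Chebyshev-type quadrature of every degree. -/
lemma exists_hasQuadrature (n : ℕ) {W : ℝ → ℝ} (hW : Continuous W)
    (hper : Function.Periodic W (2 * π)) (hpos : ∀ t, 0 < W t) :
    ∃ N : ℕ, HasQuadrature W n N := by
  have hle : -π ≤ π := by linarith [Real.pi_pos]
  -- a positive lower bound
  obtain ⟨κ, hκ, hκW⟩ : ∃ κ : ℝ, 0 < κ ∧ ∀ t, κ < W t := by
    obtain ⟨t0, _, ht0⟩ := (isCompact_Icc (a := -π) (b := π)).exists_isMinOn
      ⟨0, by constructor <;> linarith [Real.pi_pos]⟩ hW.continuousOn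
    refine ⟨W t0 / 2, by have := hpos t0; positivity, fun t => ?_⟩
    obtain ⟨s, hs, hst⟩ := hper.exists_mem_Ico (by positivity : (0:ℝ) < 2 * π) t (-π)
    have h1 : W t0 ≤ W s := ht0 ⟨hs.1, by have := hs.2; linarith⟩
    have := hpos t0
    rw [hst]
    linarith
  set V : ℝ → ℝ := fun t => W t - κ with hV
  have hVc : Continuous V := hW.sub continuous_const
  have hVpos : ∀ t, 0 < V t := fun t => by have := hκW t; simp only [hV]; linarith
  set A : ℝ := ∫ t in (-π)..π, V t with hA
  set B : ℝ := ∫ t in (-π)..π, W t with hB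
  have hApos : 0 < A := intervalIntegral.intervalIntegral_pos_of_pos
    (hVc.intervalIntegrable _ _) hVpos (by linarith [Real.pi_pos])
  have hBA : B = A + 2 * π * κ := by
    have : ∀ t, W t = V t + κ := fun t => by simp only [hV]; ring
    rw [hB, hA, intervalIntegral.integral_congr (fun t _ => this t),
      intervalIntegral.integral_add (hVc.intervalIntegrable _ _)
        (continuous_const.intervalIntegrable _ _), intervalIntegral.integral_const, smul_eq_mul]
    ring
  have hπκ : 0 < 2 * π * κ := by positivity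
  have hBpos : 0 < B := by rw [hBA]; positivity
  have hWG : Continuous (fun t => W t • G n t) := hW.smul (G_continuous n)
  have hVG : Continuous (fun t => V t • G n t) := hVc.smul (G_continuous n)
  have hint : ∫ t in (-π)..π, W t • G n t = ∫ t in (-π)..π, V t • G n t := by
    have h1 : ∀ t, W t • G n t = V t • G n t + κ • G n t := by
      intro t
      rw [← add_smul]
      congr 1
      simp only [hV]; ring
    have hκG : Continuous (fun t => κ • G n t) := (G_continuous n).const_smul κ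
    rw [intervalIntegral.integral_congr (fun t _ => h1 t), intervalIntegral.integral_add
      (hVG.intervalIntegrable _ _) (hκG.intervalIntegrable _ _),
      intervalIntegral.integral_smul, integral_G, smul_zero, add_zero]
  set c : Fin n → ℂ := B⁻¹ • ∫ t in (-π)..π, W t • G n t with hc
  have hcR : c ∈ R n := by
    obtain ⟨ρ, hρ, hball⟩ := ball_subset n
    have hc' := integral_mem_closure n hVc hVpos
    rw [← hA] at hc'
    set c' : Fin n → ℂ := A⁻¹ • ∫ t in (-π)..π, V t • G n t with hcc'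
    have hcl : c = (A / B) • c' := by
      rw [hc, hcc', hint, smul_smul]
      congr 1
      field_simp
    obtain ⟨K, hK⟩ := exists_nat_gt (B / (2 * π * κ) + 1)
    have hKB : B / (2 * π * κ) < K := by linarith
    have hK1 : (1 : ℝ) < K := by
      have : 0 < B / (2 * π * κ) := by positivity
      linarith
    have hK0 : (0 : ℝ) < K := by linarith
    have hKn : 1 < K := by exact_mod_cast hK1
    have hq : 1 / (K : ℝ) ≤ 1 - A / B := by
      have h1 : 1 - A / B = 2 * π * κ / B := by rw [hBA]; field_simp; ring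
      rw [h1, div_le_div_iff₀ hK0 hBpos]
      rw [div_lt_iff₀ hπκ] at hKB
      linarith
    have hq1 : 0 < 1 - 1 / (K : ℝ) := by
      rw [sub_pos, div_lt_one hK0]; exact hK1
    have hc'' : ((A / B) / (1 - 1 / (K : ℝ))) • c' ∈ closure (R n) := by
      apply (closure_R_convex n).smul_mem_of_zero_mem _ hc'
      · constructor
        · positivity
        · rw [div_le_one hq1]; linarith
      · exact subset_closure (hball (Metric.mem_ball_self hρ))
    set c'' : Fin n → ℂ := ((A / B) / (1 - 1 / (K : ℝ))) • c' with hcc''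
    have hcc : c = (1 - 1 / (K : ℝ)) • c'' := by
      have e0 : A / B = (1 - 1 / (K : ℝ)) * ((A / B) / (1 - 1 / (K : ℝ))) := by
        have hxy : ∀ x y : ℝ, x ≠ 0 → y = x * (y / x) := by
          intro x y hx
          field_simp
        exact hxy _ _ hq1.ne'
      rw [hcl, hcc'', smul_smul (1 - 1 / (K : ℝ)), ← e0]
    obtain ⟨r, hr, hdist⟩ := Metric.mem_closure_iff.1 hc'' (ρ / K) (by positivity)
    rw [dist_eq_norm] at hdist
    have hg : ((K : ℝ) - 1) • (c'' - r) ∈ R n := by
      apply hball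
      rw [mem_ball_zero_iff, norm_smul, Real.norm_of_nonneg (by linarith)]
      have h1 : ((K : ℝ) - 1) * ‖c'' - r‖ ≤ K * ‖c'' - r‖ := by
        have := norm_nonneg (c'' - r)
        nlinarith
      have h2 : (K : ℝ) * ‖c'' - r‖ < K * (ρ / K) := by gcongr
      have h3 : (K : ℝ) * (ρ / K) = ρ := by field_simp
      linarith
    have hcomb := R_comb hr hg (K - 1) 1 (by omega)
    have e1 : (((K - 1 : ℕ) : ℝ) + ((1 : ℕ) : ℝ)) = K := by
      rw [Nat.cast_sub (by omega)]; push_cast; ring
    rw [e1, Nat.cast_sub (by omega : 1 ≤ K)] at hcomb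
    have e2 : (((K : ℝ) - ((1 : ℕ) : ℝ)) / K) • r
        + ((((1 : ℕ) : ℝ)) / K) • (((K : ℝ) - 1) • (c'' - r)) = c := by
      rw [hcc, smul_smul]
      have e3 : ((((1 : ℕ) : ℝ)) / K) * ((K : ℝ) - 1) = 1 - 1 / (K : ℝ) := by
        push_cast; field_simp
      have e4 : (((K : ℝ) - ((1 : ℕ) : ℝ)) / K) = 1 - 1 / (K : ℝ) := by
        push_cast; field_simp
      rw [e3, e4, smul_sub]
      abel
    rw [e2] at hcomb
    exact hcomb
  obtain ⟨ι, _, _, θ, hθ⟩ := hcR
  have hN : (0 : ℝ) < (Fintype.card ι : ℝ) := by exact_mod_cast Fintype.card_pos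
  refine ⟨Fintype.card ι, fun i => θ ((Fintype.equivFin ι).symm i), B / Fintype.card ι, ?_⟩
  have hsum : ∀ f : ℝ → ℝ, ∑ i, f (θ ((Fintype.equivFin ι).symm i)) = ∑ i, f (θ i) := fun f =>
    Equiv.sum_comp (Fintype.equivFin ι).symm (fun i => f (θ i))
  have hcomp : ∀ j : Fin n, (Fintype.card ι : ℝ) • c j = ∑ i, G n (θ i) j := by
    intro j
    have := congrFun hθ j
    simpa using this
  have hB0 : B ≠ 0 := hBpos.ne'
  have hcre : ∀ j : Fin n, (c j).re = B⁻¹ * ∫ t in (-π)..π, cos (((j : ℕ) + 1 : ℕ) * t) * W t := by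
    intro j
    rw [hc]
    simp only [Pi.smul_apply, Complex.smul_re, smul_eq_mul]
    rw [integral_re hWG]
    congr 1
    apply intervalIntegral.integral_congr
    intro t _
    simp only [Pi.smul_apply, Complex.smul_re, smul_eq_mul, G_re]
    ring
  have hcim : ∀ j : Fin n, (c j).im = B⁻¹ * ∫ t in (-π)..π, sin (((j : ℕ) + 1 : ℕ) * t) * W t := by
    intro j
    rw [hc]
    simp only [Pi.smul_apply, Complex.smul_im, smul_eq_mul]
    rw [integral_im hWG]
    congr 1
    apply intervalIntegral.integral_congr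
    intro t _
    simp only [Pi.smul_apply, Complex.smul_im, smul_eq_mul, G_im]
    ring
  apply exact_of_generators hW
  · intro j hj
    rw [hsum (fun t => cos (j * t))]
    rcases Nat.eq_zero_or_pos j with rfl | hj0
    · simp only [Nat.cast_zero, zero_mul, Real.cos_zero, one_mul, Finset.sum_const,
        Finset.card_univ, nsmul_eq_mul, mul_one]
      rw [← hB]
      field_simp
    · obtain ⟨k, rfl⟩ : ∃ k, j = k + 1 := ⟨j - 1, by omega⟩
      have h1 := congrArg Complex.re (hcomp ⟨k, by omega⟩)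
      rw [Complex.smul_re, hcre, Complex.re_sum] at h1
      simp only [G_re, smul_eq_mul] at h1
      rw [← h1]
      field_simp
  · intro j hj
    rw [hsum (fun t => sin (j * t))]
    rcases Nat.eq_zero_or_pos j with rfl | hj0
    · simp
    · obtain ⟨k, rfl⟩ : ∃ k, j = k + 1 := ⟨j - 1, by omega⟩
      have h1 := congrArg Complex.im (hcomp ⟨k, by omega⟩)
      rw [Complex.smul_im, hcim, Complex.im_sum] at h1
      simp only [G_im, smul_eq_mul] at h1
      rw [← h1]
      field_simp

/-! ### The result -/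

lemma pert_contDiff (a b : ℝ) : ContDiff ℝ ω (pert a b) := by
  unfold pert
  fun_prop

lemma pert_periodic (a b : ℝ) : Function.Periodic (pert a b) (2 * π) := by
  intro t
  unfold pert
  rw [Real.cos_add_two_pi]

lemma pert_bounds {m M a b : ℝ} (hb : 0 ≤ b) (h1 : m < a - b) (h2 : a + b < M) (t : ℝ) :
    m < pert a b t ∧ pert a b t < M := by
  unfold pert
  have h3 := Real.neg_one_le_cos t
  have h4 := Real.cos_le_one t
  constructor <;> nlinarith

lemma isWeight_of {W : ℝ → ℝ} (hc : Continuous W) (hper : Function.Periodic W (2 * π))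
    (hpos : ∀ t, 0 < W t) : IsWeight W where
  measurable := hc.measurable
  periodic := hper
  nonneg := fun t => (hpos t).le
  integrable := hc.intervalIntegrable _ _
  integral_pos := intervalIntegral.intervalIntegral_pos_of_pos (hc.intervalIntegrable _ _) hpos
    (by linarith [Real.pi_pos])

lemma hasQuadrature_const_mul {W : ℝ → ℝ} {n N : ℕ} (c : ℝ) (h : HasQuadrature W n N) :
    HasQuadrature (fun t => c * W t) n N := by
  obtain ⟨θ, lam, h⟩ := h
  refine ⟨θ, c * lam, fun p hp => ?_⟩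
  have h1 : ∀ t, p t * (c * W t) = c * (p t * W t) := fun t => by ring
  rw [intervalIntegral.integral_congr (fun t _ => h1 t), intervalIntegral.integral_const_mul,
    h p hp, mul_assoc]

end Pool.Agent.Lib.MP_205740_an
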